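import Pool.Agent.REV.StmtsV3

/-!
# REV part V3, row LL3: the Lipschitz estimate
-/

namespace Pool.Agent.REV.H42

open Set MeasureTheory Filter
open scoped Topology

/-- the model function `u^(-1/2) (1+u)^(-2)` is integrable on `(0, ∞)` -/
theorem int_G : IntegrableOn (fun u : ℝ => u ^ (-(1 / 2) : ℝ) * (((1 : ℝ) + u) ^ 2)⁻¹) (Ioi 0) := by
  have hmeas : Measurable (fun u : ℝ => u ^ (-(1 / 2) : ℝ) * (((1 : ℝ) + u) ^ 2)⁻¹) := by
    fun_prop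
  have hsplit : Ioi (0 : ℝ) = Ioc 0 1 ∪ Ioi 1 := (Ioc_union_Ioi_eq_Ioi zero_le_one).symm
  rw [hsplit]
  refine IntegrableOn.union ?_ ?_
  · have h1 : IntegrableOn (fun u : ℝ => u ^ (-(1 / 2) : ℝ)) (Ioc 0 1) := by
      have := intervalIntegral.intervalIntegrable_rpow' (a := 0) (b := 1)
        (r := (-(1 / 2) : ℝ)) (by norm_num)
      exact (intervalIntegrable_iff_integrableOn_Ioc_of_le zero_le_one).mp this
    refine Integrable.mono' h1 hmeas.aestronglyMeasurable ?_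
    refine (ae_restrict_iff' measurableSet_Ioc).mpr (Eventually.of_forall fun u hu => ?_)
    have hu0 : 0 < u := hu.1
    have h2 : (0 : ℝ) ≤ u ^ (-(1 / 2) : ℝ) := (Real.rpow_pos_of_pos hu0 _).le
    have h3 : (((1 : ℝ) + u) ^ 2)⁻¹ ≤ 1 := by
      apply inv_le_one_of_one_le₀
      nlinarith
    have h4 : (0 : ℝ) ≤ (((1 : ℝ) + u) ^ 2)⁻¹ := by positivity
    rw [Real.norm_eq_abs, abs_of_nonneg (mul_nonneg h2 h4)]
    calc u ^ (-(1 / 2) : ℝ) * (((1 : ℝ) + u) ^ 2)⁻¹ ≤ u ^ (-(1 / 2) : ℝ) * 1 :=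
          mul_le_mul_of_nonneg_left h3 h2
      _ = _ := mul_one _
  · have h1 : IntegrableOn (fun u : ℝ => u ^ (-2 : ℝ)) (Ioi 1) :=
      integrableOn_Ioi_rpow_of_lt (by norm_num) one_pos
    refine Integrable.mono' h1 hmeas.aestronglyMeasurable ?_
    refine (ae_restrict_iff' measurableSet_Ioi).mpr (Eventually.of_forall fun u hu => ?_)
    have hu1 : 1 < u := hu
    have hu0 : 0 < u := by linarith
    have h2 : u ^ (-(1 / 2) : ℝ) ≤ 1 := by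
      have := Real.rpow_le_one_of_one_le_of_nonpos hu1.le (z := (-(1 / 2) : ℝ)) (by norm_num)
      exact this
    have h2' : (0 : ℝ) ≤ u ^ (-(1 / 2) : ℝ) := (Real.rpow_pos_of_pos hu0 _).le
    have h4 : (0 : ℝ) ≤ (((1 : ℝ) + u) ^ 2)⁻¹ := by positivity
    have h5 : (((1 : ℝ) + u) ^ 2)⁻¹ ≤ u ^ (-2 : ℝ) := by
      rw [Real.rpow_neg hu0.le]
      have : u ^ (2 : ℝ) = u ^ 2 := by exact_mod_cast Real.rpow_natCast u 2
      rw [this]
      apply inv_anti₀ (by positivity)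
      nlinarith
    rw [Real.norm_eq_abs, abs_of_nonneg (mul_nonneg h2' h4)]
    calc u ^ (-(1 / 2) : ℝ) * (((1 : ℝ) + u) ^ 2)⁻¹ ≤ 1 * (((1 : ℝ) + u) ^ 2)⁻¹ :=
          mul_le_mul_of_nonneg_right h2 h4
      _ ≤ _ := by rw [one_mul]; exact h5

theorem rpow_neg_half (x : ℝ) (hx : 0 ≤ x) : x ^ (-(1 / 2) : ℝ) = (Real.sqrt x)⁻¹ := by
  rw [Real.rpow_neg hx, Real.sqrt_eq_rpow]

/-- pointwise form of the scaling -/
theorem scale_pt (Q x : ℝ) (hQ : 0 < Q) (hx : 0 < x) :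
    (Q * x) ^ (-(1 / 2) : ℝ) * ((Q + Q * x) ^ 2)⁻¹ =
      ((Real.sqrt Q)⁻¹ * (Q ^ 2)⁻¹) * (x ^ (-(1 / 2) : ℝ) * (((1 : ℝ) + x) ^ 2)⁻¹) := by
  rw [Real.mul_rpow hQ.le hx.le, rpow_neg_half Q hQ.le]
  have : (Q + Q * x) ^ 2 = Q ^ 2 * (1 + x) ^ 2 := by ring
  rw [this, mul_inv]
  ring

theorem int_gQ (Q : ℝ) (hQ : 0 < Q) :
    IntegrableOn (fun τ : ℝ => τ ^ (-(1 / 2) : ℝ) * ((Q + τ) ^ 2)⁻¹) (Ioi 0) := by
  have h := integrableOn_Ioi_comp_mul_left_iff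
    (fun τ : ℝ => τ ^ (-(1 / 2) : ℝ) * ((Q + τ) ^ 2)⁻¹) 0 hQ
  rw [mul_zero] at h
  rw [← h]
  refine IntegrableOn.congr_fun (int_G.const_mul ((Real.sqrt Q)⁻¹ * (Q ^ 2)⁻¹)) ?_
    measurableSet_Ioi
  intro x hx
  exact (scale_pt Q x hQ hx).symm

theorem integral_gQ (Q : ℝ) (hQ : 0 < Q) :
    (∫ τ in Ioi (0 : ℝ), τ ^ (-(1 / 2) : ℝ) * ((Q + τ) ^ 2)⁻¹) =
      ((Real.sqrt Q) ^ 3)⁻¹ * ∫ u in Ioi (0 : ℝ), u ^ (-(1 / 2) : ℝ) * (((1 : ℝ) + u) ^ 2)⁻¹ := by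
  have h := integral_comp_mul_left_Ioi'
    (fun τ : ℝ => τ ^ (-(1 / 2) : ℝ) * ((Q + τ) ^ 2)⁻¹) 0 hQ
  rw [mul_zero] at h
  rw [← h]
  have h2 : (∫ x in Ioi (0 : ℝ), (fun τ : ℝ => τ ^ (-(1 / 2) : ℝ) * ((Q + τ) ^ 2)⁻¹) (Q * x)) =
      ((Real.sqrt Q)⁻¹ * (Q ^ 2)⁻¹) *
        ∫ u in Ioi (0 : ℝ), u ^ (-(1 / 2) : ℝ) * (((1 : ℝ) + u) ^ 2)⁻¹ := by
    rw [← integral_const_mul]
    refine setIntegral_congr_fun measurableSet_Ioi fun x hx => ?_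
    exact scale_pt Q x hQ hx
  rw [h2, smul_eq_mul, ← mul_assoc]
  congr 1
  have hs : 0 < Real.sqrt Q := Real.sqrt_pos.mpr hQ
  have hsq : Real.sqrt Q ^ 2 = Q := Real.sq_sqrt hQ.le
  have h3 : Q * ((Real.sqrt Q)⁻¹ * (Q ^ 2)⁻¹) = ((Real.sqrt Q) * Q)⁻¹ := by
    field_simp
  rw [h3, pow_succ, hsq, mul_comm]

/-- chaining -/
theorem chain (A : ℝ → ℝ) (K3 : ℝ)
    (h : ∀ Q h : ℝ, 0 < Q → 0 < h → h ≤ 1 → A Q - A (Q + h) ≤ K3 * h) :
    ∀ (N : ℕ) (Q h : ℝ), 0 < Q → 0 < h → h ≤ N → A Q - A (Q + h) ≤ K3 * h := by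
  intro N
  induction N with
  | zero =>
    intro Q h hQ hh hN
    simp at hN
    linarith
  | succ N ih =>
    intro Q h' hQ hh hN
    by_cases h1 : h' ≤ 1
    · exact h Q h' hQ hh h1
    · push Not at h1
      have h2 := h Q 1 hQ one_pos le_rfl
      have h3 := ih (Q + 1) (h' - 1) (by linarith) (by linarith) (by push_cast at hN; linarith)
      rw [show Q + 1 + (h' - 1) = Q + h' by ring] at h3
      linarith

/-- Row LL3. -/
theorem ll3 (EQ3 : Eq3Stmt) (HP3 : Hp3Stmt) (GA3 : Ga3Stmt) (TR3 : Tr3Stmt) : Ll3Stmt := by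
  intro κ R K K1 y D hκ hR hK hD hmono hy hK1 hbd heq
  have hy' : ∀ b : ℝ, 0 < b → 0 ≤ y b ∧ y b ≤ R := fun b hb => ⟨(hy b hb).1, (hy b hb).2.1⟩
  have hE := EQ3 κ R K1 y D hκ hD hmono hy' hK1 hbd heq
  set A : ℝ → ℝ := fun Q => y (Real.sqrt Q)⁻¹ with hA
  set Ψ : ℝ → ℝ := fun S => R ^ 2 - y (Real.sqrt S) ^ 2 with hΨ
  have hAbl : Abl (κ / 2) K1 A Ψ := by
    refine ⟨?_, ?_, ?_, ?_, ?_⟩
    · intro S hS S' hS' hle
      have hs : 0 < Real.sqrt S := Real.sqrt_pos.mpr hS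
      have hs' : 0 < Real.sqrt S' := Real.sqrt_pos.mpr hS'
      have h1 : y (Real.sqrt S) ≤ y (Real.sqrt S') := hmono hs hs' (Real.sqrt_le_sqrt hle)
      have h2 := (hy' _ hs).1
      simp only [hΨ]
      have : y (Real.sqrt S) ^ 2 ≤ y (Real.sqrt S') ^ 2 := pow_le_pow_left₀ h2 h1 2
      linarith
    · intro S hS
      have hs : 0 < Real.sqrt S := Real.sqrt_pos.mpr hS
      have h2 := hy' _ hs
      simp only [hΨ]
      have : y (Real.sqrt S) ^ 2 ≤ R ^ 2 := pow_le_pow_left₀ h2.1 h2.2 2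
      linarith
    · intro S hS
      have hs : 0 < Real.sqrt S := Real.sqrt_pos.mpr hS
      have h := hbd _ hs
      rw [Real.sq_sqrt hS.le] at h
      exact h
    · intro Q hQ
      exact (hE Q hQ).1
    · intro Q hQ
      exact (hE Q hQ).2
  have hκ2 : 0 ≤ κ / 2 := by positivity
  have hHP := HP3 (κ / 2) K1 A Ψ hκ2 hK1 hAbl
  have hm : ∀ Q : ℝ, 0 < Q → 0 ≤ min 1 Q⁻¹ := fun Q hQ => le_min zero_le_one (by positivity)
  set K2 : ℝ := 2 * (κ / 2) * K1 with hK2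
  have hK20 : 0 ≤ K2 := by positivity
  -- first transfer
  obtain ⟨Ka, hKa0, hKa⟩ := TR3 R K K2 (1 / 2) y hR hK hK20 (Or.inl rfl) hmono hy
    (fun Q h hQ hh => ⟨(hHP Q h hQ hh).2, fun _ => (hHP Q h hQ hh).2⟩)
  obtain ⟨Kb, hKb0, hKb⟩ := GA3 (κ / 2) K1 Ka (1 / 2) A Ψ hκ2 hK1 hKa0 (Or.inl rfl) hAbl hKa
  have e34 : (1 / 2 : ℝ) + 1 / 4 = 3 / 4 := by norm_num
  rw [e34] at hKb
  -- second transfer
  obtain ⟨Kc, hKc0, hKc⟩ := TR3 R K (max K2 Kb) (3 / 4) y hR hK (le_max_of_le_left hK20)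
    (Or.inr rfl) hmono hy (by
      intro Q h hQ hh
      refine ⟨?_, fun h1 => ?_⟩
      · refine (hHP Q h hQ hh).2.trans ?_
        refine mul_le_mul_of_nonneg_right ?_ (hm Q hQ)
        exact mul_le_mul_of_nonneg_right (le_max_left _ _) (Real.rpow_nonneg hh.le _)
      · refine (hKb Q h hQ hh h1).trans ?_
        refine mul_le_mul_of_nonneg_right ?_ (hm Q hQ)
        exact mul_le_mul_of_nonneg_right (le_max_right _ _) (Real.rpow_nonneg hh.le _))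
  obtain ⟨K3, hK30, hK3⟩ := GA3 (κ / 2) K1 Kc (3 / 4) A Ψ hκ2 hK1 hKc0 (Or.inr rfl) hAbl hKc
  have e1 : (3 / 4 : ℝ) + 1 / 4 = 1 := by norm_num
  rw [e1] at hK3
  have hch : ∀ Q h : ℝ, 0 < Q → 0 < h → A Q - A (Q + h) ≤ K3 * h := by
    intro Q h hQ hh
    obtain ⟨N, hN⟩ := exists_nat_ge h
    refine chain A K3 ?_ N Q h hQ hh hN
    intro Q h hQ hh h1
    refine (hK3 Q h hQ hh h1).trans ?_
    rw [Real.rpow_one]
    have : K3 * h * min 1 Q⁻¹ ≤ K3 * h * 1 :=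
      mul_le_mul_of_nonneg_left (min_le_left _ _) (by positivity)
    linarith
  -- the decay of Ψ
  have hΨd : ∀ S S' : ℝ, 1 ≤ S → S ≤ S' → Ψ S - Ψ S' ≤ 2 * R * K3 * (S' - S) * (S ^ 2)⁻¹ := by
    intro S S' hS hle
    rcases hle.eq_or_lt with heq' | hlt
    · rw [heq']
      simp
    have hS0 : 0 < S := by linarith
    have hS0' : 0 < S' := by linarith
    have hs : 0 < Real.sqrt S := Real.sqrt_pos.mpr hS0
    have hs' : 0 < Real.sqrt S' := Real.sqrt_pos.mpr hS0'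
    have hy1 := hy' _ hs
    have hy2 := hy' _ hs'
    have hmon : y (Real.sqrt S) ≤ y (Real.sqrt S') := hmono hs hs' (Real.sqrt_le_sqrt hle)
    have hAS : ∀ T : ℝ, 0 < T → A T⁻¹ = y (Real.sqrt T) := by
      intro T hT
      simp only [hA]
      rw [Real.sqrt_inv, inv_inv]
    have hδ : 0 < S⁻¹ - S'⁻¹ := by
      have := inv_strictAnti₀ hS0 hlt
      linarith
    have h1 := hch S'⁻¹ (S⁻¹ - S'⁻¹) (by positivity) hδ
    rw [show S'⁻¹ + (S⁻¹ - S'⁻¹) = S⁻¹ by ring, hAS S hS0, hAS S' hS0'] at h1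
    have h2 : S⁻¹ - S'⁻¹ ≤ (S' - S) * (S ^ 2)⁻¹ := by
      have : S⁻¹ - S'⁻¹ = (S' - S) * (S * S')⁻¹ := by
        field_simp
      rw [this]
      refine mul_le_mul_of_nonneg_left ?_ (by linarith)
      apply inv_anti₀ (by positivity)
      nlinarith
    have h3 : Ψ S - Ψ S' = (y (Real.sqrt S') - y (Real.sqrt S)) *
        (y (Real.sqrt S') + y (Real.sqrt S)) := by
      simp only [hΨ]
      ring
    rw [h3]
    have h4 : y (Real.sqrt S') - y (Real.sqrt S) ≤ K3 * ((S' - S) * (S ^ 2)⁻¹) :=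
      h1.trans (mul_le_mul_of_nonneg_left h2 hK30)
    calc (y (Real.sqrt S') - y (Real.sqrt S)) * (y (Real.sqrt S') + y (Real.sqrt S))
        ≤ (y (Real.sqrt S') - y (Real.sqrt S)) * (2 * R) := by
          refine mul_le_mul_of_nonneg_left ?_ (by linarith)
          linarith
      _ ≤ K3 * ((S' - S) * (S ^ 2)⁻¹) * (2 * R) :=
          mul_le_mul_of_nonneg_right h4 (by positivity)
      _ = _ := by ring
  set C0 : ℝ := ∫ u in Ioi (0 : ℝ), u ^ (-(1 / 2) : ℝ) * (((1 : ℝ) + u) ^ 2)⁻¹ with hC0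
  have hC00 : 0 ≤ C0 := by
    refine setIntegral_nonneg measurableSet_Ioi fun u hu => ?_
    have : (0 : ℝ) ≤ u ^ (-(1 / 2) : ℝ) := Real.rpow_nonneg (le_of_lt hu) _
    positivity
  have hbig : ∀ Q h : ℝ, 1 ≤ Q → 0 < h →
      A Q - A (Q + h) ≤ κ * R * K3 * C0 * h * ((Real.sqrt Q) ^ 3)⁻¹ := by
    intro Q h hQ hh
    have hQ0 : 0 < Q := by linarith
    have hQh : 0 < Q + h := by linarith
    rw [hAbl.eq Q hQ0, hAbl.eq (Q + h) hQh, ← mul_sub,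
      ← integral_sub (hAbl.integ Q hQ0) (hAbl.integ (Q + h) hQh)]
    have hle : (∫ τ in Ioi (0 : ℝ), (τ ^ (-(1 / 2) : ℝ) * Ψ (Q + τ) -
        τ ^ (-(1 / 2) : ℝ) * Ψ (Q + h + τ))) ≤
        ∫ τ in Ioi (0 : ℝ), (2 * R * K3 * h) * (τ ^ (-(1 / 2) : ℝ) * ((Q + τ) ^ 2)⁻¹) := by
      refine setIntegral_mono_on ((hAbl.integ Q hQ0).sub (hAbl.integ (Q + h) hQh))
        ((int_gQ Q hQ0).const_mul _) measurableSet_Ioi fun τ hτ => ?_
      have hτ0 : (0 : ℝ) < τ := hτ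
      have h1 := hΨd (Q + τ) (Q + h + τ) (by linarith) (by linarith)
      rw [show Q + h + τ - (Q + τ) = h by ring] at h1
      have h2 : (0 : ℝ) ≤ τ ^ (-(1 / 2) : ℝ) := Real.rpow_nonneg hτ0.le _
      have h3 := mul_le_mul_of_nonneg_left h1 h2
      calc τ ^ (-(1 / 2) : ℝ) * Ψ (Q + τ) - τ ^ (-(1 / 2) : ℝ) * Ψ (Q + h + τ)
          = τ ^ (-(1 / 2) : ℝ) * (Ψ (Q + τ) - Ψ (Q + h + τ)) := by ring
        _ ≤ τ ^ (-(1 / 2) : ℝ) * (2 * R * K3 * h * ((Q + τ) ^ 2)⁻¹) := h3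
        _ = _ := by ring
    rw [integral_const_mul, integral_gQ Q hQ0] at hle
    calc κ / 2 * ∫ τ in Ioi (0 : ℝ), (τ ^ (-(1 / 2) : ℝ) * Ψ (Q + τ) -
          τ ^ (-(1 / 2) : ℝ) * Ψ (Q + h + τ))
        ≤ κ / 2 * ((2 * R * K3 * h) * (((Real.sqrt Q) ^ 3)⁻¹ * C0)) :=
          mul_le_mul_of_nonneg_left hle hκ2
      _ = _ := by ring
  set K4 : ℝ := max K3 (κ * R * K3 * C0) with hK4
  have hK40 : 0 ≤ K4 := le_max_of_le_left hK30
  have hall : ∀ Q h : ℝ, 0 < Q → 0 < h →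
      A Q - A (Q + h) ≤ K4 * h * min 1 (((Real.sqrt Q) ^ 3)⁻¹) := by
    intro Q h hQ hh
    have hs : 0 < Real.sqrt Q := Real.sqrt_pos.mpr hQ
    by_cases h1 : 1 ≤ Q
    · have hs1 : 1 ≤ Real.sqrt Q := by
        rw [show (1 : ℝ) = Real.sqrt 1 by simp]
        exact Real.sqrt_le_sqrt h1
      have hp : 1 ≤ (Real.sqrt Q) ^ 3 := one_le_pow₀ hs1
      rw [min_eq_right (inv_le_one_of_one_le₀ hp)]
      refine (hbig Q h h1 hh).trans ?_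
      refine mul_le_mul_of_nonneg_right ?_ (by positivity)
      exact mul_le_mul_of_nonneg_right (le_max_right _ _) hh.le
    · push Not at h1
      have hs1 : Real.sqrt Q ≤ 1 := by
        rw [show (1 : ℝ) = Real.sqrt 1 by simp]
        exact Real.sqrt_le_sqrt h1.le
      have hp : (Real.sqrt Q) ^ 3 ≤ 1 := pow_le_one₀ hs.le hs1
      rw [min_eq_left ((one_le_inv₀ (by positivity)).mpr hp), mul_one]
      refine (hch Q h hQ hh).trans ?_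
      exact mul_le_mul_of_nonneg_right (le_max_left _ _) hh.le
  refine ⟨16 * K4, by positivity, ?_⟩
  intro b b' hb hbb' hb2
  have hb' : 0 < b' := by linarith
  have hminb : 0 ≤ min 1 ((b ^ 3)⁻¹) := le_min zero_le_one (by positivity)
  rcases hbb'.eq_or_lt with heq' | hlt
  · rw [heq']
    simp
  have hQ : 0 < (b' ^ 2)⁻¹ := by positivity
  have hsq : b ^ 2 < b' ^ 2 := by nlinarith
  have hh : 0 < (b ^ 2)⁻¹ - (b' ^ 2)⁻¹ := by
    have := inv_strictAnti₀ (by positivity : 0 < b ^ 2) hsq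
    linarith
  have h1 := hall (b' ^ 2)⁻¹ ((b ^ 2)⁻¹ - (b' ^ 2)⁻¹) hQ hh
  have hAb : ∀ t : ℝ, 0 < t → A (t ^ 2)⁻¹ = y t := by
    intro t ht
    simp only [hA]
    rw [Real.sqrt_inv, inv_inv, Real.sqrt_sq ht.le]
  rw [show (b' ^ 2)⁻¹ + ((b ^ 2)⁻¹ - (b' ^ 2)⁻¹) = (b ^ 2)⁻¹ by ring, hAb b hb, hAb b' hb',
    Real.sqrt_inv, Real.sqrt_sq hb'.le, inv_pow, inv_inv] at h1
  refine h1.trans ?_
  -- `h ≤ 2 (b'-b) / b^3`
  have h2 : (b ^ 2)⁻¹ - (b' ^ 2)⁻¹ ≤ 2 * (b' - b) * (b ^ 3)⁻¹ := by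
    have e : (b ^ 2)⁻¹ - (b' ^ 2)⁻¹ = (b' - b) * ((b' + b) * (b ^ 2 * b' ^ 2)⁻¹) := by
      field_simp
      ring
    rw [e]
    have h3 : (b' + b) * (b ^ 2 * b' ^ 2)⁻¹ ≤ 2 * (b ^ 3)⁻¹ := by
      rw [← div_eq_mul_inv, ← div_eq_mul_inv, div_le_div_iff₀ (by positivity) (by positivity)]
      have h5 : b ^ 3 * (b' + b) ≤ b ^ 3 * (2 * b') := by
        apply mul_le_mul_of_nonneg_left _ (by positivity)
        linarith
      have h6 : b ^ 3 * (2 * b') ≤ 2 * (b ^ 2 * b' ^ 2) := by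
        have : b * b' ≤ b' * b' := mul_le_mul_of_nonneg_right hbb' hb'.le
        have h7 : 0 ≤ b ^ 2 := by positivity
        nlinarith [mul_le_mul_of_nonneg_left this h7]
      nlinarith
    calc (b' - b) * ((b' + b) * (b ^ 2 * b' ^ 2)⁻¹) ≤ (b' - b) * (2 * (b ^ 3)⁻¹) :=
          mul_le_mul_of_nonneg_left h3 (by linarith)
      _ = _ := by ring
  have hmin : min 1 (b' ^ 3) ≤ 8 * min 1 (b ^ 3) := by
    rcases le_total 1 (b ^ 3) with h | h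
    · rw [min_eq_left h]
      have := min_le_left 1 (b' ^ 3)
      linarith
    · rw [min_eq_right h]
      have h3 : b' ^ 3 ≤ (2 * b) ^ 3 := pow_le_pow_left₀ hb'.le hb2 3
      have := min_le_right 1 (b' ^ 3)
      nlinarith
  have hmin0 : 0 ≤ min 1 (b' ^ 3) := le_min zero_le_one (by positivity)
  have hkey : (b ^ 3)⁻¹ * min 1 (b ^ 3) = min 1 ((b ^ 3)⁻¹) := by
    have hb3 : 0 < b ^ 3 := by positivity
    rcases le_total 1 (b ^ 3) with h | h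
    · rw [min_eq_left h, min_eq_right (inv_le_one_of_one_le₀ h), mul_one]
    · rw [min_eq_right h, min_eq_left ((one_le_inv₀ hb3).mpr h), inv_mul_cancel₀ hb3.ne']
  calc K4 * ((b ^ 2)⁻¹ - (b' ^ 2)⁻¹) * min 1 (b' ^ 3)
      ≤ K4 * (2 * (b' - b) * (b ^ 3)⁻¹) * min 1 (b' ^ 3) := by
        refine mul_le_mul_of_nonneg_right ?_ hmin0
        exact mul_le_mul_of_nonneg_left h2 hK40
    _ ≤ K4 * (2 * (b' - b) * (b ^ 3)⁻¹) * (8 * min 1 (b ^ 3)) := by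
        refine mul_le_mul_of_nonneg_left hmin ?_
        have : 0 ≤ b' - b := by linarith
        positivity
    _ = 16 * K4 * ((b ^ 3)⁻¹ * min 1 (b ^ 3)) * (b' - b) := by ring
    _ = _ := by rw [hkey]

end Pool.Agent.REV.H42
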