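import Pool.Agent.REV.StmtsU

set_option autoImplicit false

/-!
# REV, row CRA
-/

namespace Pool.Agent.REV.H42

open Set Filter MeasureTheory Pool.Agent.REV
open scoped Topology Interval

theorem key (F : ℝ → ℝ) (c d : ℝ) (hc : 0 < c) (hcd : c ≤ d)
    (hF : IntervalIntegrable F volume 0 c) (h0 : ∀ s, c < s → F s = 0) :
    ∫ s in (0 : ℝ)..d, F s = c * ∫ r in (0 : ℝ)..1, F (r * c) := by
  have h1 : IntervalIntegrable F volume c d := by
    rw [intervalIntegrable_iff, Set.uIoc_of_le hcd]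
    exact (integrableOn_zero (ε' := ℝ)).congr_fun (fun s hs => (h0 s hs.1).symm) measurableSet_Ioc
  have h2 : ∫ s in c..d, F s = 0 := by
    rw [intervalIntegral.integral_of_le hcd]
    rw [setIntegral_congr_fun measurableSet_Ioc (g := fun _ => (0 : ℝ)) (fun s hs => h0 s hs.1)]
    simp
  rw [← intervalIntegral.integral_add_adjacent_intervals hF h1, h2, add_zero,
    intervalIntegral.integral_comp_mul_right _ hc.ne']
  simp only [zero_mul, one_mul, smul_eq_mul]
  rw [← mul_assoc, mul_inv_cancel₀ hc.ne', one_mul]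

theorem bdd_int (F : ℝ → ℝ) (c M : ℝ) (hc : 0 < c) (hm : Measurable F)
    (hb : ∀ s, 0 < s → s ≤ c → |F s| ≤ M) : IntervalIntegrable F volume 0 c := by
  rw [intervalIntegrable_iff, Set.uIoc_of_le hc.le]
  refine Measure.integrableOn_of_bounded (M := M) (by simp) hm.aestronglyMeasurable ?_
  rw [ae_restrict_iff' measurableSet_Ioc]
  exact Eventually.of_forall fun s hs => by
    rw [Real.norm_eq_abs]
    exact hb s hs.1 hs.2

/-- **CRA** -/
theorem cra : CraStmt := by
  intro n f c d hn hf hbd hc hcd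
  obtain ⟨C, hC⟩ := hbd
  have hC0 : 0 ≤ C := (abs_nonneg _).trans (hC 0)
  have hn4 : (4 : ℝ) ≤ n := by exact_mod_cast hn
  have hc2 : 0 < c ^ 2 := by positivity
  constructor
  · set β : ℝ := ((n : ℝ) - 2) / 2 with hβ
    have hβ1 : 1 ≤ β := by rw [hβ]; linarith
    rw [key (fun s => max (1 - s ^ 2 / c ^ 2) 0 ^ β * f s) c d hc hcd ?_ ?_]
    · congr 1
      unfold RA
      refine intervalIntegral.integral_congr fun r hr => ?_
      rw [Set.uIcc_of_le (by norm_num : (0 : ℝ) ≤ 1)] at hr
      have h1 : (r * c) ^ 2 / c ^ 2 = r ^ 2 := by field_simp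
      have h2 : 0 ≤ 1 - r ^ 2 := by nlinarith [hr.1, hr.2]
      simp only [h1, max_eq_left h2, hβ]
    · refine bdd_int _ c C hc ?_ ?_
      · fun_prop
      · intro s hs0 hs
        have h1 : 0 ≤ s ^ 2 / c ^ 2 := by positivity
        have h2 : max (1 - s ^ 2 / c ^ 2) 0 ≤ 1 := max_le (by linarith) zero_le_one
        have h3 : 0 ≤ max (1 - s ^ 2 / c ^ 2) 0 := le_max_right _ _
        have h4 : max (1 - s ^ 2 / c ^ 2) 0 ^ β ≤ 1 := Real.rpow_le_one h3 h2 (by linarith)
        have h5 : 0 ≤ max (1 - s ^ 2 / c ^ 2) 0 ^ β := Real.rpow_nonneg h3 _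
        rw [abs_mul, abs_of_nonneg h5]
        calc max (1 - s ^ 2 / c ^ 2) 0 ^ β * |f s| ≤ 1 * C :=
              mul_le_mul h4 (hC s) (abs_nonneg _) zero_le_one
          _ = C := one_mul C
    · intro s hs
      have h1 : 1 - s ^ 2 / c ^ 2 ≤ 0 := by
        rw [sub_nonpos, le_div_iff₀ hc2, one_mul]
        exact pow_le_pow_left₀ hc.le hs.le 2
      simp only [max_eq_right h1, Real.zero_rpow (by linarith : β ≠ 0), zero_mul]
  · set γ : ℝ := ((n : ℝ) - 4) / 2 with hγ
    have hγ1 : 0 ≤ γ := by rw [hγ]; linarith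
    rw [key (fun s => (if s < c then s ^ 2 * (1 - s ^ 2 / c ^ 2) ^ γ else 0) * f s) c d hc hcd
      ?_ ?_]
    · have h0 : c ^ 3 * RB n f c = c * (c ^ 2 * RB n f c) := by ring
      rw [h0]
      congr 1
      unfold RB
      rw [← intervalIntegral.integral_const_mul]
      refine intervalIntegral.integral_congr_ae ?_
      have h1 : ∀ᵐ r : ℝ, r ≠ 1 := by simp [ae_iff]
      filter_upwards [h1] with r hr1 hr
      rw [Set.uIoc_of_le (by norm_num : (0 : ℝ) ≤ 1)] at hr
      have h2 : r < 1 := lt_of_le_of_ne hr.2 hr1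
      have h3 : r * c < c := by nlinarith
      have h4 : (r * c) ^ 2 / c ^ 2 = r ^ 2 := by field_simp
      simp only [if_pos h3, h4, hγ]
      ring
    · refine bdd_int _ c (c ^ 2 * C) hc ?_ ?_
      · refine Measurable.mul ?_ hf
        exact Measurable.ite measurableSet_Iio (by fun_prop) measurable_const
      · intro s hs0 hs
        by_cases h : s < c
        · have h1 : 0 ≤ s ^ 2 / c ^ 2 := by positivity
          have h2 : s ^ 2 / c ^ 2 ≤ 1 := by
            rw [div_le_one hc2]
            exact pow_le_pow_left₀ hs0.le hs 2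
          have h4 : (1 - s ^ 2 / c ^ 2) ^ γ ≤ 1 :=
            Real.rpow_le_one (by linarith) (by linarith) hγ1
          have h5 : 0 ≤ (1 - s ^ 2 / c ^ 2) ^ γ := Real.rpow_nonneg (by linarith) _
          have h6 : s ^ 2 * (1 - s ^ 2 / c ^ 2) ^ γ ≤ c ^ 2 * 1 :=
            mul_le_mul (pow_le_pow_left₀ hs0.le hs 2) h4 h5 hc2.le
          simp only [if_pos h]
          rw [abs_mul, abs_of_nonneg (by positivity)]
          calc s ^ 2 * (1 - s ^ 2 / c ^ 2) ^ γ * |f s| ≤ c ^ 2 * 1 * C :=
                mul_le_mul h6 (hC s) (abs_nonneg _) (by positivity)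
            _ = c ^ 2 * C := by ring
        · simp only [if_neg h, zero_mul, abs_zero]
          positivity
    · intro s hs
      simp only [if_neg (not_lt.2 hs.le), zero_mul]

end Pool.Agent.REV.H42
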